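import Pool.Agent.Helper87.HQ.St

set_option autoImplicit false

namespace Pool.Agent.Helper66.HQ

open Pool.Agent.Helper87.HQ
open Set

private theorem alg_aux {K : Type} [Field K] [Algebra ℝ K] (t : Set K)
    (ht : IntermediateField.adjoin ℝ t = ⊤) : Algebra.IsAlgebraic (Algebra.adjoin ℝ t) K := by
  refine ⟨fun k => ?_⟩
  have hk : k ∈ IntermediateField.adjoin ℝ t := by rw [ht]; trivial
  rw [IntermediateField.mem_adjoin_iff_div] at hk
  obtain ⟨r, hr, s, hs, rfl⟩ := hk
  by_cases h0 : s = 0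
  · rw [h0, div_zero]
    exact isAlgebraic_zero
  · refine ⟨Polynomial.C (⟨s, hs⟩ : Algebra.adjoin ℝ t) * Polynomial.X - Polynomial.C ⟨r, hr⟩, ?_, ?_⟩
    · intro h
      have h1 := congrArg (fun p => Polynomial.coeff p 1) h
      simp at h1
      exact h0 (congrArg Subtype.val h1)
    · simp only [map_sub, map_mul, Polynomial.aeval_C, Polynomial.aeval_X]
      show s * (r / s) - r = 0
      field_simp
      ring

theorem hB1 : StB1 := by
  intro σ _ K _ _ x f hx hf htr
  have htop : IntermediateField.adjoin ℝ (insert f (range x)) = ⊤ := by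
    rw [eq_top_iff, ← hx]
    exact IntermediateField.adjoin.mono ℝ _ _ (subset_insert _ _)
  have halg : Algebra.IsAlgebraic (Algebra.adjoin ℝ (insert f (range x))) K := alg_aux _ htop
  have hind : AlgebraicIndepOn ℝ id ({f} : Set K) := by
    have h1 : AlgebraicIndependent ℝ (fun i : ({f} : Set K) => (i : K)) := by
      rw [algebraicIndependent_singleton_iff (⟨f, rfl⟩ : ({f} : Set K))]
      exact htr
    exact h1
  obtain ⟨u, hfu, hut, hu⟩ := exists_isTranscendenceBasis_between (R := ℝ) (A := K) ({f} : Set K) (insert f (range x))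
    (by intro z hz; rw [mem_singleton_iff] at hz; rw [hz]; exact mem_insert _ _) hind
  have hfin : u.Finite := ((finite_range x).insert f).subset hut
  have hFin : Finite u := hfin
  have hfu' : f ∈ u := hfu rfl
  obtain ⟨m, ⟨e⟩⟩ := Finite.exists_equiv_fin u
  obtain ⟨n, rfl⟩ : ∃ n, m = n + 1 := by
    refine Nat.exists_eq_succ_of_ne_zero ?_
    rintro rfl
    exact (e ⟨f, hfu'⟩).elim0
  let e' : Fin (n + 1) ≃ u := (Equiv.swap (0 : Fin (n + 1)) (e ⟨f, hfu'⟩)).trans e.symm
  have he' : e' 0 = ⟨f, hfu'⟩ := by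
    show e.symm (Equiv.swap (0 : Fin (n + 1)) (e ⟨f, hfu'⟩) 0) = ⟨f, hfu'⟩
    rw [Equiv.swap_apply_left, Equiv.symm_apply_apply]
  refine ⟨n, fun i => (e' i : K), ?_, ?_, ?_⟩
  · show ((e' 0 : u) : K) = f
    rw [he']
  · intro i
    rcases hut (e' i).2 with h | h
    · show ((e' i : u) : K) ∈ _
      rw [h]; exact hf
    · exact Algebra.subset_adjoin h
  · exact hu.comp_equiv e'

end Pool.Agent.Helper66.HQ
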